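import Pool.Agent.H25.LF.Targets

/-!
# (DIV) Dirichlet's divisor sum and Stirling's formula
-/

set_option autoImplicit false

open Finset Real ArithmeticFunction

namespace Pool.Agent.H35.LF

open Pool.Agent.H25.LF

/-- the pairs with product at most `N` -/
def P (N : ℕ) : Finset (ℕ × ℕ) := (Icc 1 N ×ˢ Icc 1 N).filter fun x => x.1 * x.2 ≤ N

theorem mem_P {N : ℕ} {x : ℕ × ℕ} : x ∈ P N ↔ (1 ≤ x.1 ∧ 1 ≤ x.2) ∧ x.1 * x.2 ≤ N := by
  unfold P
  rw [mem_filter, mem_product, mem_Icc, mem_Icc]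
  constructor
  · rintro ⟨⟨h1, h2⟩, h3⟩
    exact ⟨⟨h1.1, h2.1⟩, h3⟩
  · rintro ⟨⟨h1, h2⟩, h3⟩
    exact ⟨⟨⟨h1, (Nat.le_mul_of_pos_right _ h2).trans h3⟩, h2,
      (Nat.le_mul_of_pos_left _ h1).trans h3⟩, h3⟩

theorem inner (N a : ℕ) (ha : 1 ≤ a) : ((Icc 1 N).filter fun b => a * b ≤ N).card = N / a := by
  have e : ((Icc 1 N).filter fun b => a * b ≤ N) = Icc 1 (N / a) := by
    ext b
    rw [mem_filter, mem_Icc, mem_Icc, Nat.le_div_iff_mul_le (by omega), mul_comm b a]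
    constructor
    · rintro ⟨⟨h1, _⟩, h2⟩
      exact ⟨h1, h2⟩
    · rintro ⟨h1, h2⟩
      exact ⟨⟨h1, (Nat.le_mul_of_pos_left _ ha).trans h2⟩, h2⟩
  rw [e, Nat.card_Icc, Nat.add_sub_cancel]

theorem card_low (N s : ℕ) (hs : s ≤ N) :
    ((P N).filter fun x => x.1 ≤ s).card = ∑ a ∈ Icc 1 s, N / a := by
  have e : ((P N).filter fun x => x.1 ≤ s) =
      (Icc 1 s ×ˢ Icc 1 N).filter fun x => x.1 * x.2 ≤ N := by
    ext x
    rw [mem_filter, mem_P, mem_filter, mem_product, mem_Icc, mem_Icc]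
    constructor
    · rintro ⟨⟨⟨h1, h2⟩, h3⟩, h4⟩
      exact ⟨⟨⟨h1, h4⟩, h2, (Nat.le_mul_of_pos_left _ h1).trans h3⟩, h3⟩
    · rintro ⟨⟨⟨h1, h4⟩, h2, _⟩, h3⟩
      exact ⟨⟨⟨h1, h2⟩, h3⟩, h4⟩
  rw [e, card_filter, sum_product]
  refine sum_congr rfl fun a ha => ?_
  rw [← inner N a (mem_Icc.1 ha).1, card_filter]

theorem hyp (N s : ℕ) (hs1 : s * s ≤ N) (hs2 : N < (s + 1) * (s + 1)) :
    ∑ n ∈ Icc 1 N, n.divisors.card + s * s = 2 * ∑ a ∈ Icc 1 s, N / a := by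
  have hsN : s ≤ N := (Nat.le_mul_self s).trans hs1
  have h1 : ∑ n ∈ Icc 1 N, n.divisors.card = (P N).card := by
    have h2 := sum_Ioc_sigma0_eq_sum_div N
    have e : Ioc 0 N = Icc 1 N := by
      ext x
      rw [mem_Ioc, mem_Icc]
      omega
    rw [e] at h2
    simp only [sigma_zero_apply] at h2
    rw [h2, ← card_low N N le_rfl]
    congr 1
    refine filter_true_of_mem fun x hx => ?_
    have := mem_P.1 hx
    exact (Nat.le_mul_of_pos_right _ this.1.2).trans this.2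
  have h2 : ((P N).filter fun x => x.2 ≤ s).card = ((P N).filter fun x => x.1 ≤ s).card := by
    refine card_bij (fun x _ => (x.2, x.1)) ?_ ?_ ?_
    · intro x hx
      rw [mem_filter, mem_P] at hx ⊢
      exact ⟨⟨⟨hx.1.1.2, hx.1.1.1⟩, by rw [mul_comm]; exact hx.1.2⟩, hx.2⟩
    · intro x _ y _ h
      rw [Prod.mk.injEq] at h
      exact Prod.ext h.2 h.1
    · intro x hx
      rw [mem_filter, mem_P] at hx
      refine ⟨(x.2, x.1), ?_, rfl⟩
      rw [mem_filter, mem_P]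
      exact ⟨⟨⟨hx.1.1.2, hx.1.1.1⟩, by rw [mul_comm]; exact hx.1.2⟩, hx.2⟩
  have h3 : ((P N).filter fun x => x.1 ≤ s) ∪ ((P N).filter fun x => x.2 ≤ s) = P N := by
    ext x
    rw [mem_union, mem_filter, mem_filter]
    constructor
    · rintro (h | h)
      · exact h.1
      · exact h.1
    · intro hx
      have h4 := mem_P.1 hx
      by_contra hcon
      push Not at hcon
      have h5 := hcon.1 hx
      have h6 := hcon.2 hx
      have h7 : (s + 1) * (s + 1) ≤ x.1 * x.2 := Nat.mul_le_mul h5 h6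
      omega
  have h4 : ((P N).filter fun x => x.1 ≤ s) ∩ ((P N).filter fun x => x.2 ≤ s) =
      Icc 1 s ×ˢ Icc 1 s := by
    ext x
    rw [mem_inter, mem_filter, mem_filter, mem_product, mem_Icc, mem_Icc, mem_P]
    constructor
    · rintro ⟨⟨⟨⟨h1, h2⟩, _⟩, h4⟩, _, h5⟩
      exact ⟨⟨h1, h4⟩, h2, h5⟩
    · rintro ⟨⟨h1, h4⟩, h2, h5⟩
      have h6 : x.1 * x.2 ≤ N := (Nat.mul_le_mul h4 h5).trans hs1
      exact ⟨⟨⟨⟨h1, h2⟩, h6⟩, h4⟩, ⟨⟨h1, h2⟩, h6⟩, h5⟩
  have h5 := card_union_add_card_inter ((P N).filter fun x => x.1 ≤ s)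
    ((P N).filter fun x => x.2 ≤ s)
  rw [h3, h4, h2, card_product, Nat.card_Icc, Nat.add_sub_cancel, card_low N s hsN] at h5
  rw [h1, h5]
  ring

/-! ## Stirling -/

theorem log_step {n : ℝ} (hn : 1 ≤ n) :
    n * (Real.log (n + 1) - Real.log n) ≤ 1 ∧ 1 ≤ (n + 1) * (Real.log (n + 1) - Real.log n) := by
  have h0 : 0 < n := by linarith
  constructor
  · have h1 := Real.log_le_sub_one_of_pos (x := (n + 1) / n) (by positivity)
    rw [Real.log_div (by positivity) (by positivity)] at h1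
    have h2 : (n + 1) / n - 1 = 1 / n := by field_simp; ring
    rw [h2] at h1
    calc n * (Real.log (n + 1) - Real.log n) ≤ n * (1 / n) := mul_le_mul_of_nonneg_left h1 h0.le
      _ = 1 := by field_simp
  · have h1 := Real.log_le_sub_one_of_pos (x := n / (n + 1)) (by positivity)
    rw [Real.log_div (by positivity) (by positivity)] at h1
    have h2 : n / (n + 1) - 1 = -(1 / (n + 1)) := by field_simp; ring
    rw [h2] at h1
    have h3 : 1 / (n + 1) ≤ Real.log (n + 1) - Real.log n := by linarith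
    calc (1 : ℝ) = (n + 1) * (1 / (n + 1)) := by field_simp
      _ ≤ _ := mul_le_mul_of_nonneg_left h3 (by positivity)

theorem stirling (N : ℕ) (hN : 1 ≤ N) :
    (N : ℝ) * Real.log N - N ≤ ∑ n ∈ Icc 1 N, Real.log n ∧
    ∑ n ∈ Icc 1 N, Real.log n ≤ (N : ℝ) * Real.log N - N + 1 + Real.log N := by
  induction N, hN using Nat.le_induction with
  | base => simp
  | succ N hN ih =>
    have h1 := log_step (n := (N : ℝ)) (by exact_mod_cast hN)
    rw [sum_Icc_succ_top (by omega)]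
    push_cast
    constructor
    · linarith [ih.1, h1.1]
    · linarith [ih.2, h1.2]

/-! ## The theorem -/

theorem harm (s : ℕ) (hs : 1 ≤ s) :
    0 ≤ ∑ a ∈ Icc 1 s, (1 : ℝ) / a - Real.log s - Real.eulerMascheroniConstant ∧
    ∑ a ∈ Icc 1 s, (1 : ℝ) / a - Real.log s - Real.eulerMascheroniConstant ≤ 1 / s := by
  have e : ((harmonic s : ℚ) : ℝ) = ∑ a ∈ Icc 1 s, (1 : ℝ) / a := by
    rw [harmonic_eq_sum_Icc]
    push_cast
    exact sum_congr rfl fun a _ => by rw [one_div]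
  have h2 := Real.eulerMascheroniSeq_lt_eulerMascheroniConstant s
  have h3 := Real.eulerMascheroniConstant_lt_eulerMascheroniSeq' s
  unfold Real.eulerMascheroniSeq at h2
  unfold Real.eulerMascheroniSeq' at h3
  rw [if_neg (by omega), e] at h3
  rw [e] at h2
  have h4 := (log_step (n := (s : ℝ)) (by exact_mod_cast hs)).1
  have hs0 : (0 : ℝ) < s := by exact_mod_cast hs
  have h5 : Real.log ((s : ℝ) + 1) - Real.log s ≤ 1 / s := by
    rw [le_div_iff₀ hs0, mul_comm]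
    exact h4
  exact ⟨by linarith, by linarith⟩

theorem floors (N s : ℕ) :
    0 ≤ (N : ℝ) * ∑ a ∈ Icc 1 s, (1 : ℝ) / a - ((∑ a ∈ Icc 1 s, N / a : ℕ) : ℝ) ∧
    (N : ℝ) * ∑ a ∈ Icc 1 s, (1 : ℝ) / a - ((∑ a ∈ Icc 1 s, N / a : ℕ) : ℝ) ≤ s := by
  have e : (N : ℝ) * ∑ a ∈ Icc 1 s, (1 : ℝ) / a - ((∑ a ∈ Icc 1 s, N / a : ℕ) : ℝ) =
      ∑ a ∈ Icc 1 s, ((N : ℝ) / a - ((N / a : ℕ) : ℝ)) := by
    rw [mul_sum, Nat.cast_sum, ← sum_sub_distrib]
    exact sum_congr rfl fun a _ => by rw [mul_one_div]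
  rw [e]
  constructor
  · exact sum_nonneg fun a _ => sub_nonneg.2 Nat.cast_div_le
  · calc ∑ a ∈ Icc 1 s, ((N : ℝ) / a - ((N / a : ℕ) : ℝ)) ≤ ∑ _a ∈ Icc 1 s, (1 : ℝ) := by
          refine sum_le_sum fun a ha => ?_
          have ha0 : (0 : ℝ) < a := by exact_mod_cast (mem_Icc.1 ha).1
          have h1 : N < (N / a + 1) * a := by
            have := Nat.lt_div_mul_add (a := N) (b := a) (mem_Icc.1 ha).1
            linarith
          have h2 : (N : ℝ) < (((N / a : ℕ) : ℝ) + 1) * a := by exact_mod_cast h1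
          have h3 : (N : ℝ) / a < ((N / a : ℕ) : ℝ) + 1 := by
            rw [div_lt_iff₀ ha0]
            exact h2
          linarith
      _ = s := by simp

theorem pf_DIV : T_DIV := by
  refine ⟨23, 2 * Real.eulerMascheroniConstant, fun y hy => ?_⟩
  set N := ⌊y⌋₊ with hNdef
  have hN : 1 ≤ N := Nat.le_floor (by exact_mod_cast hy)
  have hN1 : (1 : ℝ) ≤ N := by exact_mod_cast hN
  have hNy : (N : ℝ) ≤ y := Nat.floor_le (by linarith)
  obtain ⟨s, hsdef⟩ : ∃ s, s = Nat.sqrt N := ⟨_, rfl⟩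
  have hs1 : s * s ≤ N := by rw [hsdef]; exact Nat.sqrt_le N
  have hs2 : N < (s + 1) * (s + 1) := by rw [hsdef]; exact Nat.lt_succ_sqrt N
  have hs : 1 ≤ s := by
    by_contra h
    have : s = 0 := by omega
    rw [this] at hs2
    omega
  have hsR : (1 : ℝ) ≤ s := by exact_mod_cast hs
  have hs1R : (s : ℝ) * s ≤ N := by exact_mod_cast hs1
  have hs2R : (N : ℝ) ≤ s * s + 2 * s := by
    have : N ≤ s * s + 2 * s := by nlinarith
    exact_mod_cast this
  have h1 := hyp N s hs1 hs2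
  have h1R : ∑ n ∈ Icc 1 N, (n.divisors.card : ℝ) + (s : ℝ) * s =
      2 * ((∑ a ∈ Icc 1 s, N / a : ℕ) : ℝ) := by exact_mod_cast h1
  obtain ⟨f1, f2⟩ := floors N s
  obtain ⟨g1, g2⟩ := harm s hs
  obtain ⟨k1, k2⟩ := stirling N hN
  set S := ((∑ a ∈ Icc 1 s, N / a : ℕ) : ℝ)
  set H := ∑ a ∈ Icc 1 s, (1 : ℝ) / a
  set γ := Real.eulerMascheroniConstant
  have hs0 : (0 : ℝ) < s := by linarith
  have hN0 : (0 : ℝ) < N := by linarith
  have hNs : (N : ℝ) * (1 / s) ≤ 3 * s := by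
    rw [mul_one_div, div_le_iff₀ hs0]
    nlinarith
  have m1 : 0 ≤ (N : ℝ) * (H - Real.log s - γ) := mul_nonneg hN0.le g1
  have m2 : (N : ℝ) * (H - Real.log s - γ) ≤ 3 * s :=
    (mul_le_mul_of_nonneg_left g2 hN0.le).trans hNs
  have l1 : 2 * Real.log s ≤ Real.log N := by
    have h2 : Real.log ((s : ℝ) * s) ≤ Real.log N := Real.log_le_log (by positivity) hs1R
    rw [Real.log_mul hs0.ne' hs0.ne'] at h2
    linarith
  have l2 : Real.log N ≤ 2 * Real.log s + 2 * (1 / s) := by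
    have h2 : Real.log N ≤ Real.log (((s : ℝ) + 1) * (s + 1)) :=
      Real.log_le_log hN0 (by nlinarith)
    rw [Real.log_mul (by positivity) (by positivity)] at h2
    have h4 := (log_step (n := (s : ℝ)) hsR).1
    have h5 : Real.log ((s : ℝ) + 1) - Real.log s ≤ 1 / s := by
      rw [le_div_iff₀ hs0, mul_comm]
      exact h4
    linarith
  have n1 : 0 ≤ (N : ℝ) * (Real.log N - 2 * Real.log s) := mul_nonneg hN0.le (by linarith)
  have n2 : (N : ℝ) * (Real.log N - 2 * Real.log s) ≤ 6 * s := by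
    have h2 : (N : ℝ) * (Real.log N - 2 * Real.log s) ≤ N * (2 * (1 / s)) :=
      mul_le_mul_of_nonneg_left (by linarith) hN0.le
    linarith
  have hsum : ∑ n ∈ Icc 1 N, (Real.log n - (n.divisors.card : ℝ) + 2 * γ) =
      ∑ n ∈ Icc 1 N, Real.log n - ∑ n ∈ Icc 1 N, (n.divisors.card : ℝ) + N * (2 * γ) := by
    rw [sum_add_distrib, sum_sub_distrib, sum_const, Nat.card_Icc, Nat.add_sub_cancel,
      nsmul_eq_mul]
  have hsq : (s : ℝ) ≤ √y := by
    apply Real.le_sqrt_of_sq_le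
    nlinarith
  have hy1 : 1 ≤ √y := Real.one_le_sqrt.2 hy
  have hlog : Real.log N ≤ 2 * √y := by
    have h2 : Real.log N ≤ Real.log y := Real.log_le_log hN0 hNy
    have h3 : Real.log y = 2 * Real.log √y := by
      rw [Real.log_sqrt (by linarith)]
      ring
    have h4 := Real.log_le_sub_one_of_pos (x := √y) (by linarith)
    linarith
  rw [hsum, abs_le]
  constructor
  · nlinarith
  · nlinarith

end Pool.Agent.H35.LF
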