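import Pool.Agent.H28.LF.T1
import Pool.Agent.H67.AG.T1
import Pool.Agent.H67.AG.T3

/-!
Project LF (`MP_c59857_nt`, THEOREM U): module SPM, spectral measures with rational atoms.
-/

set_option autoImplicit false

open MeasureTheory ProbabilityTheory Filter Topology Finset
open scoped Nat ENNReal

namespace Pool.Agent.H35.LF

open Pool.Agent.H28.LF
open Pool.Agent.H67.AG (Inv Rt Av)

theorem spm_unit (y : ℝ) : ‖Complex.exp (2 * Real.pi * Complex.I * (y : ℂ))‖ = 1 := by
  have : (2 * Real.pi * Complex.I * (y : ℂ) : ℂ) = ((2 * Real.pi * y : ℝ) : ℂ) * Complex.I := by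
    push_cast
    ring
  rw [this, Complex.norm_exp_ofReal_mul_I]

theorem spm_geo (z : ℂ) (hz1 : z ≠ 1) (hzn : ‖z‖ = 1) :
    Tendsto (fun h : ℕ => ‖∑ l ∈ range h, (1 / (h : ℂ)) * z ^ l‖ ^ 2) atTop (𝓝 0) := by
  have hpos : 0 < ‖z - 1‖ := norm_pos_iff.2 (sub_ne_zero.2 hz1)
  have hb : ∀ N : ℕ, ‖∑ n ∈ range N, (1 / (N : ℂ)) * z ^ n‖ ^ 2 ≤
        (2 / ‖z - 1‖ * (1 / (N : ℝ))) ^ 2 := by
    intro N
    apply pow_le_pow_left₀ (norm_nonneg _)
    rw [← Finset.mul_sum]
    rw [geom_sum_eq hz1, norm_mul, norm_div (z ^ N - 1), mul_comm]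
    have h1 : ‖z ^ N - 1‖ ≤ 2 := by
      refine (norm_sub_le _ _).trans ?_
      rw [norm_pow, hzn]
      norm_num
    have h2 : ‖(1 / (N : ℂ))‖ = 1 / (N : ℝ) := by
      rw [norm_div, norm_one, Complex.norm_natCast]
    rw [h2]
    apply mul_le_mul_of_nonneg_right _ (by positivity)
    exact div_le_div_of_nonneg_right h1 hpos.le
  have hlim : Tendsto (fun N : ℕ => (2 / ‖z - 1‖ * (1 / (N : ℝ))) ^ 2) atTop (𝓝 0) := by
    have h1 : Tendsto (fun N : ℕ => 1 / (N : ℝ)) atTop (𝓝 0) := tendsto_one_div_atTop_nhds_zero_nat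
    have h2 := (h1.const_mul (2 / ‖z - 1‖)).pow 2
    simpa using h2
  exact squeeze_zero (fun N => by positivity) hb hlim

/-- the exponential along the multiples of `N` -/
theorem spm_pow (x : ℝ) (N l : ℕ) :
    Complex.exp (2 * Real.pi * Complex.I * ((x : ℂ) * ((N * l : ℕ) : ℂ))) =
      Complex.exp (2 * Real.pi * Complex.I * (((N : ℝ) * x : ℝ) : ℂ)) ^ l := by
  rw [← Complex.exp_nat_mul]
  congr 1
  push_cast
  ring

theorem spm_one (y : ℝ) (hy : 0 ≤ y) :
    Complex.exp (2 * Real.pi * Complex.I * (y : ℂ)) = 1 ↔ ∃ k : ℕ, y = k := by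
  rw [Complex.exp_eq_one_iff]
  constructor
  · rintro ⟨n, hn⟩
    have h2 : (y : ℂ) = (n : ℂ) := by
      have h3 : (2 * Real.pi * Complex.I : ℂ) ≠ 0 := Complex.two_pi_I_ne_zero
      apply mul_left_cancel₀ h3
      rw [hn]
      ring
    have h4 : y = (n : ℝ) := by exact_mod_cast h2
    rw [h4] at hy
    have h5 : 0 ≤ n := by exact_mod_cast hy
    refine ⟨n.toNat, ?_⟩
    rw [h4]
    have h6 : ((n.toNat : ℤ) : ℝ) = (n : ℝ) := by rw [Int.toNat_of_nonneg h5]
    rw [← h6]
    push_cast
    rfl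
  · rintro ⟨k, hk⟩
    refine ⟨(k : ℤ), ?_⟩
    rw [hk]
    push_cast
    ring

theorem spm_lim {Ω : Type} [MeasurableSpace Ω] (P : Measure Ω) [IsProbabilityMeasure P]
    (hme : Pool.Agent.H67.AG.T_ME) (T : Ω ≃ᵐ Ω) (f : Ω → ℝ) (b : ℕ)
    (hT : MeasurePreserving T P P) (hf : Measurable f) (hf1 : ∀ ω, |f ω| ≤ 1) :
    Tendsto (fun N : ℕ => ∫ ω, (Av T b N f ω) ^ 2 ∂P) atTop
      (𝓝 (∫ ω, ((P[f | Inv T b]) ω) ^ 2 ∂P)) := by
  set E : Ω → ℝ := P[f | Inv T b] with hE
  have hInv : Inv T b ≤ (inferInstance : MeasurableSpace Ω) := MeasurableSpace.invariants_le _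
  have hE1 : ∀ᵐ ω ∂P, |E ω| ≤ 1 := by
    apply ae_bdd_abs_condExp_of_ae_bdd_abs (R := 1)
    filter_upwards with ω
    exact hf1 ω
  have hEm : AEStronglyMeasurable E P := (stronglyMeasurable_condExp.mono hInv).aestronglyMeasurable
  have hAvm : ∀ N, Measurable (Av T b N f) := by
    intro N
    unfold Av
    apply Measurable.div_const
    apply Finset.measurable_sum
    intro n _
    exact hf.comp (T.measurable.iterate _)
  have hAv1 : ∀ N ω, |Av T b N f ω| ≤ 1 := by
    intro N ω
    unfold Av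
    rw [abs_div, Nat.abs_cast]
    apply div_le_one_of_le₀ _ (Nat.cast_nonneg _)
    refine (abs_sum_le_sum_abs _ _).trans ?_
    refine (Finset.sum_le_sum fun n _ => hf1 (T^[b * n] ω)).trans ?_
    simp
  have hm := hme Ω P T b f hT hf hf1
  rw [Metric.tendsto_atTop] at hm ⊢
  intro ε hε
  obtain ⟨N₀, hN₀⟩ := hm (ε ^ 2 / 4) (by positivity)
  refine ⟨N₀, fun N hN => ?_⟩
  have h1 := hN₀ N hN
  rw [Real.dist_eq, sub_zero, abs_of_nonneg (integral_nonneg fun ω => by positivity)] at h1
  rw [Real.dist_eq]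
  have i1 : Integrable (fun ω => (Av T b N f ω) ^ 2) P := by
    refine Integrable.of_bound (C := 1) ((hAvm N).pow_const 2).aestronglyMeasurable ?_
    filter_upwards with ω
    rw [norm_pow]
    exact pow_le_one₀ (norm_nonneg _) (hAv1 N ω)
  have i2 : Integrable (fun ω => (E ω) ^ 2) P := by
    refine Integrable.of_bound (C := 1) (hEm.pow 2) ?_
    filter_upwards [hE1] with ω hω
    rw [norm_pow]
    exact pow_le_one₀ (norm_nonneg _) hω
  have i3 : Integrable (fun ω => (Av T b N f ω - E ω) ^ 2) P := by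
    refine Integrable.of_bound (C := 4)
      (((hAvm N).aestronglyMeasurable.sub hEm).pow 2) ?_
    filter_upwards [hE1] with ω hω
    have h2 := hAv1 N ω
    rw [Real.norm_eq_abs, abs_of_nonneg (by positivity)]
    have h3 : |Av T b N f ω - E ω| ≤ 2 := by
      refine (abs_sub _ _).trans ?_
      linarith
    rw [← sq_abs]
    nlinarith [abs_nonneg (Av T b N f ω - E ω)]
  rw [← integral_sub i1 i2]
  have h4 : |∫ ω, ((Av T b N f ω) ^ 2 - E ω ^ 2) ∂P| ≤
      ∫ ω, (ε / 2 + 2 / ε * (Av T b N f ω - E ω) ^ 2) ∂P := by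
    refine (abs_integral_le_integral_abs).trans ?_
    apply integral_mono_ae (i1.sub i2).abs
    · exact (integrable_const _).add (i3.const_mul _)
    · filter_upwards [hE1] with ω hω
      have h2 := hAv1 N ω
      set u := Av T b N f ω
      set v := E ω
      have h5 : |u ^ 2 - v ^ 2| ≤ 2 * |u - v| := by
        have : u ^ 2 - v ^ 2 = (u + v) * (u - v) := by ring
        rw [this, abs_mul]
        apply mul_le_mul_of_nonneg_right _ (abs_nonneg _)
        refine (abs_add_le _ _).trans ?_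
        linarith
      refine h5.trans ?_
      have h6 : 0 ≤ (|u - v| - ε / 2) ^ 2 := sq_nonneg _
      have h7 : (u - v) ^ 2 = |u - v| ^ 2 := (sq_abs _).symm
      rw [h7]
      have h8 : 2 / ε * |u - v| ^ 2 = (2 * |u - v| ^ 2) / ε := by ring
      have h9 : 2 * |u - v| - ε / 2 ≤ (2 * |u - v| ^ 2) / ε := by
        rw [le_div_iff₀ hε]
        nlinarith
      linarith
  refine lt_of_le_of_lt h4 ?_
  rw [integral_add (integrable_const _) (i3.const_mul _), integral_const_mul]
  simp only [integral_const, probReal_univ, smul_eq_mul, one_mul]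
  have h10 : 2 / ε * ∫ ω, (Av T b N f ω - E ω) ^ 2 ∂P < 2 / ε * (ε ^ 2 / 4) := by
    apply mul_lt_mul_of_pos_left h1
    positivity
  have h11 : 2 / ε * (ε ^ 2 / 4) = ε / 2 := by
    field_simp
    norm_num
  linarith

theorem pf_SPM (hH : Pool.Agent.H67.AG.T_HER) (hM : Pool.Agent.H67.AG.T_ME) : T_SPM := by
  intro Ω _ P _ T f hT hf hf1
  obtain ⟨ν, hν, hA, -⟩ := hH Ω P T 1 f hT hf hf1
  refine ⟨ν, hν, fun n => ?_, fun N hN => ?_⟩
  · -- polarisation
    have hm : ∀ k : ℕ, Measurable fun ω => f (T^[k] ω) := fun k =>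
      hf.comp (T.measurable.iterate _)
    have i1 : ∀ k l : ℕ, Integrable (fun ω => f (T^[k] ω) * f (T^[l] ω)) P := by
      intro k l
      refine Integrable.of_bound (C := 1) ((hm k).mul (hm l)).aestronglyMeasurable ?_
      filter_upwards with ω
      rw [Real.norm_eq_abs, abs_mul]
      exact mul_le_one₀ (hf1 _) (abs_nonneg _) (hf1 _)
    have hsq : ∀ k : ℕ, ∫ ω, f (T^[k] ω) * f (T^[k] ω) ∂P = ν.real Set.univ := by
      intro k
      have h := hA {k} (fun _ => 1)
      simp only [Finset.sum_singleton, one_mul] at h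
      have e1 : (fun ω => ‖((f (T^[k] ω) : ℝ) : ℂ)‖ ^ 2) = fun ω => f (T^[k] ω) * f (T^[k] ω) := by
        funext ω
        rw [Complex.norm_real, Real.norm_eq_abs, sq_abs, sq]
      have e2 : (fun x : Set.Ico (0 : ℝ) 1 =>
          ‖Complex.exp (2 * Real.pi * Complex.I * ((x : ℝ) * k))‖ ^ 2) = fun _ => (1 : ℝ) := by
        funext x
        have := spm_unit ((x : ℝ) * k)
        push_cast at this
        rw [this]
        norm_num
      rw [e1, e2] at h
      rw [h, integral_const, smul_eq_mul, mul_one]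
    rcases Nat.eq_zero_or_pos n with h0 | h0
    · subst h0
      have := hsq 0
      simp only [Function.iterate_zero, id_eq] at this ⊢
      rw [this]
      simp
    · have h := hA {0, n} (fun _ => 1)
      have hne : (0 : ℕ) ≠ n := by omega
      simp only [Finset.sum_pair hne, one_mul, Function.iterate_zero, id_eq] at h
      have e1 : (fun ω => ‖((f ω : ℝ) : ℂ) + ((f (T^[n] ω) : ℝ) : ℂ)‖ ^ 2) =
          fun ω => f (T^[0] ω) * f (T^[0] ω) + f (T^[n] ω) * f (T^[n] ω) +
            2 * (f (T^[0] ω) * f (T^[n] ω)) := by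
        funext ω
        rw [← Complex.ofReal_add, Complex.norm_real, Real.norm_eq_abs, sq_abs]
        simp only [Function.iterate_zero, id_eq]
        ring
      have e2 : (fun x : Set.Ico (0 : ℝ) 1 =>
          ‖Complex.exp (2 * Real.pi * Complex.I * ((x : ℝ) * (0 : ℕ))) +
            Complex.exp (2 * Real.pi * Complex.I * ((x : ℝ) * n))‖ ^ 2) =
          fun x : Set.Ico (0 : ℝ) 1 => 2 + 2 * Real.cos (2 * Real.pi * ((x : ℝ) * n)) := by
        funext x
        have e3 : (2 * Real.pi * Complex.I * (((x : ℝ) : ℂ) * n) : ℂ) =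
            ((2 * Real.pi * ((x : ℝ) * n) : ℝ) : ℂ) * Complex.I := by
          push_cast
          ring
        rw [e3]
        set θ : ℝ := 2 * Real.pi * ((x : ℝ) * n) with hθ
        have e4 : Complex.exp (2 * Real.pi * Complex.I * (((x : ℝ) : ℂ) * ((0 : ℕ) : ℂ))) = 1 := by
          simp
        rw [e4, Complex.exp_mul_I, ← Complex.normSq_eq_norm_sq]
        have e5 : (1 : ℂ) + (Complex.cos (θ : ℂ) + Complex.sin (θ : ℂ) * Complex.I) =
            ⟨1 + Real.cos θ, Real.sin θ⟩ := by
          apply Complex.ext <;>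
            simp [Complex.cos_ofReal_re, Complex.sin_ofReal_re, Complex.cos_ofReal_im,
              Complex.sin_ofReal_im]
        rw [e5, Complex.normSq_mk]
        nlinarith [Real.sin_sq_add_cos_sq θ]
      rw [e1, e2] at h
      have ic : Integrable (fun x : Set.Ico (0 : ℝ) 1 =>
          Real.cos (2 * Real.pi * ((x : ℝ) * n))) ν := by
        refine Integrable.of_bound (C := 1) ?_ ?_
        · apply Measurable.aestronglyMeasurable
          fun_prop
        · filter_upwards with x
          rw [Real.norm_eq_abs]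
          exact Real.abs_cos_le_one _
      have j1 : ∫ ω, (f (T^[0] ω) * f (T^[0] ω) + f (T^[n] ω) * f (T^[n] ω) +
          2 * (f (T^[0] ω) * f (T^[n] ω))) ∂P =
          ∫ ω, (f (T^[0] ω) * f (T^[0] ω) + f (T^[n] ω) * f (T^[n] ω)) ∂P +
          ∫ ω, 2 * (f (T^[0] ω) * f (T^[n] ω)) ∂P :=
        integral_add ((i1 0 0).add (i1 n n)) ((i1 0 n).const_mul 2)
      have j2 : ∫ ω, (f (T^[0] ω) * f (T^[0] ω) + f (T^[n] ω) * f (T^[n] ω)) ∂P =
          ∫ ω, f (T^[0] ω) * f (T^[0] ω) ∂P + ∫ ω, f (T^[n] ω) * f (T^[n] ω) ∂P :=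
        integral_add (i1 0 0) (i1 n n)
      have j3 : ∫ x : Set.Ico (0 : ℝ) 1, (2 + 2 * Real.cos (2 * Real.pi * ((x : ℝ) * n))) ∂ν =
          ∫ _x : Set.Ico (0 : ℝ) 1, (2 : ℝ) ∂ν +
          ∫ x : Set.Ico (0 : ℝ) 1, 2 * Real.cos (2 * Real.pi * ((x : ℝ) * n)) ∂ν :=
        integral_add (integrable_const _) (ic.const_mul 2)
      rw [j1, j2, hsq, hsq, integral_const_mul, j3, integral_const_mul, integral_const,
        smul_eq_mul] at h
      simp only [Function.iterate_zero, id_eq] at h
      linarith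
  · -- the atoms
    have hN' : (0 : ℝ) < N := by exact_mod_cast hN
    set S : Set (Set.Ico (0 : ℝ) 1) := {x | ∃ k : ℕ, (N : ℝ) * (x : ℝ) = k} with hS
    have hlim1 : Tendsto (fun h : ℕ => ∫ x, ‖∑ l ∈ range h, (1 / (h : ℂ)) *
        Complex.exp (2 * Real.pi * Complex.I * ((x : ℝ) * ((N * l : ℕ) : ℂ)))‖ ^ 2 ∂ν) atTop
        (𝓝 (∫ x, Set.indicator S (fun _ => (1 : ℝ)) x ∂ν)) := by
      apply tendsto_integral_of_dominated_convergence (fun _ => (1 : ℝ))
      · intro h
        apply Measurable.aestronglyMeasurable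
        fun_prop
      · exact integrable_const _
      · intro h
        filter_upwards with x
        rw [Real.norm_eq_abs, abs_of_nonneg (by positivity)]
        have : ‖∑ l ∈ range h, (1 / (h : ℂ)) *
            Complex.exp (2 * Real.pi * Complex.I * ((x : ℝ) * ((N * l : ℕ) : ℂ)))‖ ≤ 1 := by
          refine (norm_sum_le _ _).trans ?_
          have h1 : ∀ l ∈ range h, ‖(1 / (h : ℂ)) *
            Complex.exp (2 * Real.pi * Complex.I * ((x : ℝ) * ((N * l : ℕ) : ℂ)))‖ =
              1 / (h : ℝ) := by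
            intro l _
            rw [norm_mul, spm_pow, norm_pow, spm_unit, one_pow, mul_one, norm_div, norm_one,
              Complex.norm_natCast]
          rw [Finset.sum_congr rfl h1, Finset.sum_const, card_range, nsmul_eq_mul]
          rcases Nat.eq_zero_or_pos h with h0 | h0
          · simp [h0]
          · have : (h : ℝ) ≠ 0 := by positivity
            rw [mul_one_div_cancel this]
        exact pow_le_one₀ (norm_nonneg _) this
      · filter_upwards with x
        have hx0 : 0 ≤ (N : ℝ) * (x : ℝ) := mul_nonneg hN'.le x.2.1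
        have e : ∀ h : ℕ, ∑ l ∈ range h, (1 / (h : ℂ)) *
            Complex.exp (2 * Real.pi * Complex.I * (((x : ℝ) : ℂ) * ((N * l : ℕ) : ℂ))) =
            ∑ l ∈ range h, (1 / (h : ℂ)) *
              Complex.exp (2 * Real.pi * Complex.I * (((N : ℝ) * (x : ℝ) : ℝ) : ℂ)) ^ l := by
          intro h
          apply Finset.sum_congr rfl
          intro l _
          rw [spm_pow]
        simp_rw [e]
        by_cases hx : x ∈ S
        · rw [Set.indicator_of_mem hx]
          have h1 := (spm_one _ hx0).2 hx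
          rw [h1]
          apply tendsto_const_nhds.congr'
          filter_upwards [eventually_gt_atTop 0] with h hh
          have hh' : (h : ℂ) ≠ 0 := by
            exact_mod_cast hh.ne'
          simp [hh']
        · rw [Set.indicator_of_notMem hx]
          apply spm_geo _ _ (spm_unit _)
          intro h1
          exact hx ((spm_one _ hx0).1 h1)
    have hms : MeasurableSet S := by
      have : S = ⋃ k : ℕ, {x : Set.Ico (0 : ℝ) 1 | (N : ℝ) * (x : ℝ) = k} := by
        ext x
        simp [hS]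
      rw [this]
      apply MeasurableSet.iUnion
      intro k
      have hm : Measurable fun x : Set.Ico (0 : ℝ) 1 => (N : ℝ) * (x : ℝ) := by fun_prop
      exact hm (measurableSet_singleton (k : ℝ))
    have hind : ∫ x, Set.indicator S (fun _ => (1 : ℝ)) x ∂ν = ν.real S := by
      rw [integral_indicator hms, setIntegral_const, smul_eq_mul, mul_one]
    rw [hind] at hlim1
    have hAv : ∀ h : ℕ, ∫ x, ‖∑ l ∈ range h, (1 / (h : ℂ)) *
        Complex.exp (2 * Real.pi * Complex.I * ((x : ℝ) * ((N * l : ℕ) : ℂ)))‖ ^ 2 ∂ν =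
        ∫ ω, (Av T N h f ω) ^ 2 ∂P := by
      intro h
      have hinj : ∀ l ∈ range h, ∀ l' ∈ range h, N * l = N * l' → l = l' := by
        intro l _ l' _ hl
        exact Nat.eq_of_mul_eq_mul_left hN hl
      have h1 := hA ((range h).image fun l => N * l) (fun _ => 1 / (h : ℂ))
      simp only [Finset.sum_image hinj] at h1
      rw [← h1]
      apply integral_congr_ae
      filter_upwards with ω
      have e : ∑ l ∈ range h, (1 / (h : ℂ)) * (f (T^[1 * (N * l)] ω) : ℂ) =
          ((Av T N h f ω : ℝ) : ℂ) := by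
        rw [← Finset.mul_sum, Av]
        push_cast
        simp only [one_mul]
        ring
      rw [e, Complex.norm_real, Real.norm_eq_abs, sq_abs]
    simp_rw [hAv] at hlim1
    exact tendsto_nhds_unique hlim1 (spm_lim P hM T f N hT hf hf1)

end Pool.Agent.H35.LF
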